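import Pool.Agent.MP_2a1f0e_nt.LQ.Wk

set_option autoImplicit false

open Finset

namespace Pool.Agent.MP_2a1f0e_nt.LQ

open GM GM2 SQ

lemma layer {x n q : ℝ} (J : ℕ) (hx : 0 ≤ x) (hn : 0 < n) (h2 : x ≤ 2 * n) (hJ : n ≤ 2 ^ J)
    (hq : 0 ≤ q) :
    x ^ q ≤ 1 + ∑ j ∈ range (J + 1), if n / 2 ^ j ≤ x then (2 * (n / 2 ^ j)) ^ q else 0 := by
  have h0 : ∀ j ∈ range (J + 1),
      0 ≤ if n / 2 ^ j ≤ x then (2 * (n / 2 ^ j)) ^ q else (0 : ℝ) := fun j _ => by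
    split_ifs
    · positivity
    · exact le_rfl
  by_cases h : n / 2 ^ J ≤ x
  · have hex : ∃ j : ℕ, n / 2 ^ j ≤ x := ⟨J, h⟩
    have h1 := Nat.find_spec hex
    have h3 : Nat.find hex ≤ J := Nat.find_min' hex h
    have h4 : x ≤ 2 * (n / 2 ^ Nat.find hex) := by
      rcases hf : Nat.find hex with _ | i
      · simpa using h2
      · have := not_le.1 (Nat.find_min hex (show i < Nat.find hex by omega))
        refine this.le.trans_eq ?_
        field_simp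
        ring
    have h5 := single_le_sum h0 (mem_range.2 (Nat.lt_succ_of_le h3))
    rw [if_pos h1] at h5
    have h6 := Real.rpow_le_rpow hx h4 hq
    linarith
  · have h1 : x ≤ 1 := (not_le.1 h).le.trans ((div_le_one (by positivity)).2 hJ)
    have h3 := Real.rpow_le_one hx h1 hq
    have h4 := sum_nonneg h0
    linarith

lemma card_le_cnt (N T : ℕ) (b : ℕ → ℂ) (V : ℝ) :
    ((Icc 1 T).filter fun t : ℕ => V ≤ ‖DP N b t‖).card ≤ DH.cnt N b T V := by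
  unfold DH.cnt
  refine card_le_card_of_injOn (fun t : ℕ => (t : ℤ)) (fun t ht => ?_)
    fun s _ t _ h => Nat.cast_injective (R := ℤ) h
  rw [mem_coe, mem_filter, mem_Icc] at ht ⊢
  refine ⟨⟨Nat.cast_nonneg t, Nat.cast_le.2 ht.1.2⟩, ?_⟩
  rw [Int.cast_natCast]
  exact ht.2

lemma sum_le_of_weak {N T : ℕ} {b : ℕ → ℂ} {q B : ℝ} (hN : 1 ≤ N) (hb : ∀ n, ‖b n‖ ≤ 1)
    (hq : 0 ≤ q) (h : ∀ V : ℝ, 0 < V → V ≤ N → (DH.cnt N b T V : ℝ) * V ^ q ≤ B) :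
    ∑ t ∈ Icc 1 T, ‖DP N b t‖ ^ q ≤ T + (Nat.log 2 N + 2) * (2 ^ q * B) := by
  have n1 : (1 : ℝ) ≤ N := by exact_mod_cast hN
  have n0 : (0 : ℝ) < N := by linarith
  have hJ : (N : ℝ) ≤ 2 ^ (Nat.log 2 N + 1) := by
    exact_mod_cast (Nat.lt_pow_succ_log_self one_lt_two N).le
  have h2 : ∀ t : ℝ, ‖DP N b t‖ ≤ 2 * N := fun t => (norm_DP_le N b hb t).trans (by linarith)
  refine (sum_le_sum fun (t : ℕ) _ =>
    layer (Nat.log 2 N + 1) (norm_nonneg _) n0 (h2 (t : ℝ)) hJ hq).trans ?_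
  rw [sum_add_distrib, sum_comm, sum_const, Nat.card_Icc, Nat.add_sub_cancel, nsmul_eq_mul, mul_one]
  refine add_le_add le_rfl ((sum_le_card_nsmul _ _ (2 ^ q * B) fun j _ => ?_).trans_eq ?_)
  · have hV : 0 < (N : ℝ) / 2 ^ j := by positivity
    rw [← sum_filter, sum_const, nsmul_eq_mul, Real.mul_rpow (by norm_num) hV.le, mul_left_comm]
    refine mul_le_mul_of_nonneg_left (le_trans ?_ (h _ hV
      (div_le_self n0.le (one_le_pow₀ one_le_two)))) (by positivity)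
    exact mul_le_mul_of_nonneg_right (Nat.cast_le.2 (card_le_cnt N T b _)) (by positivity)
  · rw [card_range, nsmul_eq_mul]
    push_cast
    ring

/-- the moment bound -/
def MomStmt : Prop := ∀ (k m : ℕ) (θ y q ε : ℝ), Par k m θ y → q = θ + 2 * k → 0 < ε → ∃ K : ℝ,
  ∀ N T : ℕ, 1 ≤ N → (T : ℝ) ≤ (N : ℝ) ^ (k + y) → ∀ b : ℕ → ℂ, (∀ n, ‖b n‖ ≤ 1) →
    ∑ t ∈ Icc 1 T, ‖DP N b t‖ ^ q ≤ K * (N : ℝ) ^ ε * ((N : ℝ) ^ q + (N : ℝ) ^ (q / 2) * (T : ℝ))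

theorem mom_of_wk (h : WkStmt) : MomStmt := by
  intro k m θ y q ε hP eq hε
  have hq : 0 ≤ q := eq ▸ add_nonneg hP.2.2.1 (by positivity)
  obtain ⟨K, hK, h⟩ := h k m θ y q (ε / 2) hP eq (half_pos hε)
  obtain ⟨C, hC, hl⟩ := DH.exists_log_le (half_pos hε)
  refine ⟨1 + 2 * C * (2 ^ q * K), fun N T hN hT b hb => ?_⟩
  have n1 : (1 : ℝ) ≤ N := by exact_mod_cast hN
  have n0 : (0 : ℝ) < N := by linarith
  refine (sum_le_of_weak hN hb hq fun V hV hVN => h N T V b hN hT hV hVN hb).trans ?_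
  have e1 : (N : ℝ) ^ ε = (N : ℝ) ^ (ε / 2) * (N : ℝ) ^ (ε / 2) := by
    rw [← Real.rpow_add n0, add_halves]
  have u1 : 1 ≤ (N : ℝ) ^ (ε / 2) := Real.one_le_rpow n1 (half_pos hε).le
  have u2 : 1 ≤ (N : ℝ) ^ (q / 2) := Real.one_le_rpow n1 (by linarith)
  have u3 : 0 ≤ (N : ℝ) ^ q := by positivity
  have u4 : (0 : ℝ) ≤ T := Nat.cast_nonneg T
  have u5 := hl N hN
  have u6 : (0 : ℝ) ≤ Nat.log 2 N := Nat.cast_nonneg _
  have u7 : (0 : ℝ) < 2 ^ q * K := by positivity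
  rw [e1]
  generalize (N : ℝ) ^ (ε / 2) = u at *
  generalize (N : ℝ) ^ (q / 2) = s at *
  generalize (N : ℝ) ^ q = Y at *
  have v1 : (T : ℝ) ≤ s * T := le_mul_of_one_le_left u4 u2
  have v2 : (T : ℝ) ≤ u * u * (Y + s * T) :=
    le_trans (by linarith) (le_mul_of_one_le_left (by linarith)
      (one_le_mul_of_one_le_of_one_le u1 u1))
  have v3 : ((Nat.log 2 N : ℝ) + 2) * (2 ^ q * (K * u * Y)) ≤
      2 * C * (2 ^ q * K) * (u * u) * (Y + s * T) := by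
    calc ((Nat.log 2 N : ℝ) + 2) * (2 ^ q * (K * u * Y))
        = ((Nat.log 2 N : ℝ) + 2) * (2 ^ q * K * u * Y) := by ring
      _ ≤ 2 * (C * u) * (2 ^ q * K * u * (Y + s * T)) := by
        gcongr
        · linarith
        · linarith
      _ = _ := by ring
  linarith

end Pool.Agent.MP_2a1f0e_nt.LQ
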