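import Pool.Agent.MP_2a1f0e_nt.LQ.Lay
import Pool.Agent.MP_2a1f0e_nt.GM4.Main
import Pool.Agent.MP_2a1f0e_nt.SQ.Main
import Pool.Agent.MP_2a1f0e_nt.RF.Main

set_option autoImplicit false

namespace Pool.Agent.MP_2a1f0e_nt.LQ

theorem mom_all : MomStmt :=
  mom_of_wk (wk_stmt (mvK SQ.mv_all) (lvM GM4.int4_all) SQ.int6_all (rfM RF.core_all RF.mass_all))

end Pool.Agent.MP_2a1f0e_nt.LQ
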