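import Pool.Agent.MP_2a1f0e_nt.SQ.Hi9
import Pool.Agent.MP_2a1f0e_nt.SQ.One9
import Pool.Agent.MP_2a1f0e_nt.GM4.Defs
import Pool.Agent.MP_2a1f0e_nt.RF.LV

set_option autoImplicit false

open Finset

namespace Pool.Agent.MP_2a1f0e_nt.LQ

open GM GM2 SQ

/-- the mean value bound for the `k`-th power -/
def MvK : Prop := ∀ (k : ℕ) (ε : ℝ), 0 < ε → ∃ K : ℝ, 0 < K ∧ ∀ (N T : ℕ) (V : ℝ) (b : ℕ → ℂ),
  1 ≤ N → 0 < V → (∀ n, ‖b n‖ ≤ 1) →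
    (DH.cnt N b T V : ℝ) ≤ K * (N : ℝ) ^ ε *
      (((T : ℝ) + (N : ℝ) ^ k) * (N : ℝ) ^ k / V ^ (2 * k))

/-- the large values bound for the `m`-th power -/
def LvM : Prop := ∀ (m : ℕ) (ε : ℝ), 0 < ε → ∃ K : ℝ, 0 < K ∧ ∀ (N T : ℕ) (V : ℝ) (b : ℕ → ℂ),
  1 ≤ N → N ^ m ≤ T → 0 < V → (∀ n, ‖b n‖ ≤ 1) →
    (DH.cnt N b T V : ℝ) ≤ K * (N : ℝ) ^ ε *
      (((N : ℝ) ^ m) ^ 2 / V ^ (2 * m) + √T * ((N : ℝ) ^ m) ^ 3 / V ^ (4 * m) +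
        T * ((N : ℝ) ^ m) ^ (50 / 21 : ℝ) / V ^ (4 * m))

/-- the reflection bound for the `m`-th power -/
def RfM : Prop := ∀ (m : ℕ) (ε : ℝ), 0 < ε → ∃ K : ℝ, 0 < K ∧ ∀ (N T : ℕ) (V : ℝ) (b : ℕ → ℂ),
  1 ≤ N → N ^ m ≤ T → T ≤ (N ^ m) ^ 2 → 0 < V → (∀ n, ‖b n‖ ≤ 1) →
    (DH.cnt N b T V : ℝ) ≤ K * (N : ℝ) ^ ε *
      (((N : ℝ) ^ m) ^ 2 / V ^ (2 * m) +
        (T : ℝ) ^ (1 / 7 : ℝ) * ((N : ℝ) ^ m) ^ (26 / 7 : ℝ) / V ^ (4 * m))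

/-- transfer of a bound to powers -/
lemma transfer (k : ℕ) {ε : ℝ} (hε : 0 < ε) (P : ℕ → ℕ → Prop) (G : ℕ → ℕ → ℝ → ℝ)
    (hG : ∀ δ : ℝ, 0 < δ → ∃ K : ℝ, 0 < K ∧ ∀ (M T : ℕ) (W : ℝ) (c : ℕ → ℂ), 1 ≤ M → P M T →
      0 < W → (∀ n, ‖c n‖ ≤ 1) → (DH.cnt M c T W : ℝ) ≤ K * (M : ℝ) ^ δ * G M T W) :
    ∃ K : ℝ, 0 < K ∧ ∀ (N T : ℕ) (V B : ℝ) (b : ℕ → ℂ), 1 ≤ N → 0 < V → 0 ≤ B →
      (∀ n, ‖b n‖ ≤ 1) → (∀ M : ℕ, N ^ k ≤ M → P M T) →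
      (∀ (M : ℕ) (L : ℝ), 1 ≤ M → (M : ℝ) ≤ 2 ^ k * (N : ℝ) ^ k → 1 ≤ L →
        G M T (V ^ k / L) ≤ L ^ 4 * B) → (DH.cnt N b T V : ℝ) ≤ K * (N : ℝ) ^ ε * B := by
  obtain ⟨δ, hδ, hδε⟩ : ∃ δ : ℝ, 0 < δ ∧ δ * ((k + k * k * 4 + 1 : ℕ) : ℝ) = ε :=
    ⟨ε / ((k + k * k * 4 + 1 : ℕ) : ℝ), by positivity, by
      have : (0 : ℝ) < ((k + k * k * 4 + 1 : ℕ) : ℝ) := by positivity
      field_simp⟩
  obtain ⟨K, hK, hG⟩ := hG δ hδ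
  obtain ⟨C, hC, hsp⟩ := split_Hi9 k hδ
  refine ⟨(k + 1) * (K * ((2 : ℝ) ^ δ) ^ k * ((k + 1) * C) ^ 4), by positivity, ?_⟩
  intro N T V B b hN hV hB hb hP hL
  obtain ⟨c, hc, hcnt⟩ := hsp N hN V hV b hb
  have hN0 : (0 : ℝ) < N := by exact_mod_cast hN
  have hε' : (N : ℝ) ^ ε = ((N : ℝ) ^ δ) ^ (k + k * k * 4 + 1) := by
    rw [← hδε, Real.rpow_mul_natCast hN0.le]
  obtain ⟨u, hu⟩ : ∃ u : ℝ, u = (N : ℝ) ^ δ := ⟨_, rfl⟩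
  have hu1 : 1 ≤ u := by
    rw [hu]
    exact Real.one_le_rpow (by exact_mod_cast hN) hδ.le
  have hu0 : 0 < u := by linarith
  rw [hε', ← hu]
  rw [← hu] at hcnt
  have hL1 : 1 ≤ ((k : ℝ) + 1) * (C * u ^ (k * k)) :=
    one_le_mul_of_one_le_of_one_le (le_add_of_nonneg_left (Nat.cast_nonneg k))
      (one_le_mul_of_one_le_of_one_le hC (one_le_pow₀ hu1))
  refine (sum_Hi9 (B := K * (((2 : ℝ) ^ δ) ^ k * u ^ k) *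
    ((((k : ℝ) + 1) * (C * u ^ (k * k))) ^ 4 * B)) (hcnt T) fun j hj => ?_).trans ?_
  · have hM : 1 ≤ 2 ^ j * N ^ k := Nat.succ_le_of_lt (by positivity)
    have a1 := pc_Hi9 k j N hj hδ
    rw [← hu] at a1
    have a2 : ((2 ^ j * N ^ k : ℕ) : ℝ) ≤ 2 ^ k * (N : ℝ) ^ k := by
      push_cast
      exact mul_le_mul_of_nonneg_right (pow_le_pow_right₀ one_le_two hj) (by positivity)
    refine (hG _ T _ (c j) hM (hP _ (Nat.le_mul_of_pos_left _ (by positivity))) (by positivity)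
      (hc j)).trans ?_
    refine (mul_le_mul_of_nonneg_left (hL _ _ hM a2 hL1) (by positivity)).trans ?_
    exact mul_le_mul_of_nonneg_right (mul_le_mul_of_nonneg_left a1 hK.le) (by positivity)
  · have a3 : u ^ (k + k * k * 4) ≤ u ^ (k + k * k * 4 + 1) :=
      pow_le_pow_right₀ hu1 (Nat.le_succ _)
    calc _ = (k + 1) * (K * ((2 : ℝ) ^ δ) ^ k * ((k + 1) * C) ^ 4) * u ^ (k + k * k * 4) * B := by
          ring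
      _ ≤ _ := by gcongr

theorem mvK (hM : MvStmt) : MvK := by
  intro k ε hε
  obtain ⟨K, hK, h⟩ := transfer k hε (fun _ _ => True) (fun M T W => ((T : ℝ) + M) * M / W ^ 2)
    fun δ hδ => by
      obtain ⟨K, hK, hM⟩ := hM δ hδ
      exact ⟨K, hK, fun M T W c h1 _ h2 h3 => (hM M T W c h1 h2 h3).1⟩
  refine ⟨K * (2 ^ k) ^ 2, by positivity, fun N T V b hN hV hb => ?_⟩
  refine (h N T V ((2 ^ k) ^ 2 * (((T : ℝ) + (N : ℝ) ^ k) * (N : ℝ) ^ k / V ^ (2 * k))) b hN hV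
    (by positivity) hb (fun _ _ => trivial) fun M L _ hM hL => ?_).trans_eq (by ring)
  have hA : (1 : ℝ) ≤ 2 ^ k := one_le_pow₀ one_le_two
  have hT : (T : ℝ) ≤ 2 ^ k * T := le_mul_of_one_le_left (Nat.cast_nonneg T) hA
  have hL2 : L ^ 2 ≤ L ^ 4 := pow_le_pow_right₀ hL (by norm_num)
  have hL0 : 0 < L := by linarith
  calc ((T : ℝ) + M) * M / (V ^ k / L) ^ 2 = L ^ 2 * (((T : ℝ) + M) * M / V ^ (2 * k)) := by
        field_simp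
        ring
    _ ≤ L ^ 4 * ((2 ^ k * (T : ℝ) + 2 ^ k * (N : ℝ) ^ k) * (2 ^ k * (N : ℝ) ^ k) / V ^ (2 * k)) := by
        gcongr
    _ = _ := by ring

theorem lvM (hI : GM4.Int4Stmt) : LvM := by
  intro m ε hε
  obtain ⟨K, hK, h⟩ := transfer m hε (fun _ _ => True) (fun M T W => (M : ℝ) ^ 2 / W ^ 2 +
      √((T : ℝ) + M) * (M : ℝ) ^ 3 / W ^ 4 + ((T : ℝ) + M) * (M : ℝ) ^ (50 / 21 : ℝ) / W ^ 4)
    fun δ hδ => by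
      obtain ⟨K, hK, hI⟩ := hI δ hδ
      refine ⟨K, hK, fun M T W c h1 _ h2 h3 => ?_⟩
      have m1 := (le_div_iff₀ (by positivity)).2 ((cnt_mass_One9 M (T + M) c h2).trans
        (hI M (T + M) h1 (Nat.le_add_left M T) c h3 W h2))
      refine le_trans (Nat.cast_le.2 (DH.cnt_mono _ _ (Nat.le_add_right T M) le_rfl))
        (m1.trans_eq ?_)
      push_cast
      field_simp
      ring
  refine ⟨K * (2 * 2 ^ m) ^ 4, by positivity, fun N T V b hN hT hV hb => ?_⟩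
  refine (h N T V ((2 * 2 ^ m) ^ 4 * (((N : ℝ) ^ m) ^ 2 / V ^ (2 * m) +
    √T * ((N : ℝ) ^ m) ^ 3 / V ^ (4 * m) + T * ((N : ℝ) ^ m) ^ (50 / 21 : ℝ) / V ^ (4 * m))) b hN
    hV (by positivity) hb (fun _ _ => trivial) fun M L hM1 hM hL => ?_).trans_eq (by ring)
  have hT' : (N : ℝ) ^ m ≤ T := by exact_mod_cast hT
  have hX : 0 ≤ (N : ℝ) ^ m := by positivity
  have e2 : V ^ (2 * m) = (V ^ m) ^ 2 := by ring
  have e4 : V ^ (4 * m) = (V ^ m) ^ 4 := by ring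
  have hW : 0 < V ^ m := by positivity
  rw [e2, e4]
  generalize (N : ℝ) ^ m = X at *
  generalize V ^ m = W at *
  have hA : (1 : ℝ) ≤ 2 ^ m := one_le_pow₀ one_le_two
  obtain ⟨A, hA'⟩ : ∃ A : ℝ, A = 2 * 2 ^ m := ⟨_, rfl⟩
  have hA1 : 1 ≤ A := by linarith
  have hL0 : 0 < L := by linarith
  have hT0 : (0 : ℝ) ≤ T := Nat.cast_nonneg T
  have hM0 : (0 : ℝ) ≤ M := Nat.cast_nonneg M
  have b1 : (M : ℝ) ≤ A * X := by rw [hA']; nlinarith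
  have b2 : (T : ℝ) + M ≤ A * T := by rw [hA']; nlinarith
  have b3 : √((T : ℝ) + M) ≤ A * √T := by
    refine (Real.sqrt_le_sqrt (b2.trans ?_)).trans_eq
      ((Real.sqrt_mul (sq_nonneg A) T).trans (by rw [Real.sqrt_sq (by linarith)]))
    exact mul_le_mul_of_nonneg_right (by nlinarith) hT0
  have b4 : (M : ℝ) ^ (50 / 21 : ℝ) ≤ A ^ 3 * X ^ (50 / 21 : ℝ) := by
    refine (Real.rpow_le_rpow hM0 b1 (by norm_num)).trans ?_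
    rw [Real.mul_rpow (by linarith) hX]
    refine mul_le_mul_of_nonneg_right ?_ (by positivity)
    exact (Real.rpow_le_rpow_of_exponent_le hA1 (z := ((3 : ℕ) : ℝ)) (by norm_num)).trans_eq
      (Real.rpow_natCast _ 3)
  have b5 : L ^ 2 ≤ L ^ 4 := pow_le_pow_right₀ hL (by norm_num)
  have b6 : A ^ 2 ≤ A ^ 4 := pow_le_pow_right₀ hA1 (by norm_num)
  rw [← hA']
  have c1 : (M : ℝ) ^ 2 / (W / L) ^ 2 ≤ L ^ 4 * (A ^ 4 * (X ^ 2 / W ^ 2)) := by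
    calc (M : ℝ) ^ 2 / (W / L) ^ 2 = L ^ 2 * ((M : ℝ) ^ 2 / W ^ 2) := by field_simp
      _ ≤ L ^ 4 * ((A * X) ^ 2 / W ^ 2) := by gcongr
      _ = L ^ 4 * (A ^ 2 * (X ^ 2 / W ^ 2)) := by ring
      _ ≤ _ := by gcongr
  have c2 : √((T : ℝ) + M) * (M : ℝ) ^ 3 / (W / L) ^ 4 ≤
      L ^ 4 * (A ^ 4 * (√T * X ^ 3 / W ^ 4)) := by
    calc √((T : ℝ) + M) * (M : ℝ) ^ 3 / (W / L) ^ 4 =
          L ^ 4 * (√((T : ℝ) + M) * (M : ℝ) ^ 3 / W ^ 4) := by field_simp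
      _ ≤ L ^ 4 * (A * √T * (A * X) ^ 3 / W ^ 4) := by gcongr
      _ = _ := by ring
  have c3 : ((T : ℝ) + M) * (M : ℝ) ^ (50 / 21 : ℝ) / (W / L) ^ 4 ≤
      L ^ 4 * (A ^ 4 * (T * X ^ (50 / 21 : ℝ) / W ^ 4)) := by
    calc ((T : ℝ) + M) * (M : ℝ) ^ (50 / 21 : ℝ) / (W / L) ^ 4 =
          L ^ 4 * (((T : ℝ) + M) * (M : ℝ) ^ (50 / 21 : ℝ) / W ^ 4) := by field_simp
      _ ≤ L ^ 4 * (A * T * (A ^ 3 * X ^ (50 / 21 : ℝ)) / W ^ 4) := by gcongr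
      _ = _ := by ring
  linarith

theorem rfM (hC : RF.CoreStmt) (hM : RF.MassStmt) : RfM := by
  intro m ε hε
  obtain ⟨K, hK, h⟩ := transfer m hε (fun M T => T ≤ M ^ 2) (fun M T W => (M : ℝ) ^ 2 / W ^ 2 +
      ((T : ℝ) + M) ^ (1 / 7 : ℝ) * (M : ℝ) ^ (26 / 7 : ℝ) / W ^ 4)
    fun δ hδ => by
      obtain ⟨K1, hK1, h1⟩ := hC δ hδ
      obtain ⟨K2, hK2, h2⟩ := hM δ hδ
      refine ⟨K1 + K2, by positivity, fun M T W c hM hT hW hc => ?_⟩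
      have s1 : M ≤ max T M := le_max_right _ _
      have s2 : max T M ≤ M ^ 2 := max_le hT (Nat.le_self_pow two_ne_zero M)
      have s3 : ((max T M : ℕ) : ℝ) ≤ (T : ℝ) + M := by
        exact_mod_cast max_le (Nat.le_add_right T M) (Nat.le_add_left M T)
      have e1 := RF.split_LV M c (Icc 0 ((max T M : ℕ) : ℤ)) W (√(M * √((max T M : ℕ) : ℝ))) hW
      have e2 := (RF.sub_LV M (max T M) c (√(M * √((max T M : ℕ) : ℝ))) (hM.trans s1)).trans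
        (h2 M _ hM s1 s2 c hc)
      have e3 := h1 M _ hM s1 s2 c hc
      have e4 : (M : ℝ) ^ (26 / 7 : ℝ) * ((max T M : ℕ) : ℝ) ^ (1 / 7 : ℝ) ≤
          ((T : ℝ) + M) ^ (1 / 7 : ℝ) * (M : ℝ) ^ (26 / 7 : ℝ) := by
        rw [mul_comm]
        gcongr
      have e5 := e3.trans (mul_le_mul_of_nonneg_left e4 (by positivity))
      have e6 := div_le_div_of_nonneg_right e5 (sq_nonneg W)
      have m1 := (le_div_iff₀ (by positivity)).2 ((cnt_mass_One9 M (max T M) c hW).trans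
        (e1.trans (add_le_add e2 e6)))
      refine le_trans (Nat.cast_le.2 (DH.cnt_mono _ _ (le_max_left T M) le_rfl)) (m1.trans ?_)
      have p0 : 0 ≤ (M : ℝ) ^ δ := by positivity
      have p1 : 0 ≤ ((T : ℝ) + M) ^ (1 / 7 : ℝ) * (M : ℝ) ^ (26 / 7 : ℝ) := by positivity
      generalize ((T : ℝ) + M) ^ (1 / 7 : ℝ) * (M : ℝ) ^ (26 / 7 : ℝ) = F at *
      generalize (M : ℝ) ^ δ = A at *
      have p2 : 0 ≤ K1 * (A * ((M : ℝ) ^ 2 / W ^ 2)) := by positivity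
      have p3 : 0 ≤ K2 * (A * (F / W ^ 4)) := by positivity
      have p4 : (K2 * A * (M : ℝ) ^ 2 + K1 * A * F / W ^ 2) / W ^ 2 =
          K2 * (A * ((M : ℝ) ^ 2 / W ^ 2)) + K1 * (A * (F / W ^ 4)) := by
        field_simp
      rw [p4]
      linarith
  refine ⟨K * (2 * 2 ^ m) ^ 5, by positivity, fun N T V b hN hT hT2 hV hb => ?_⟩
  refine (h N T V ((2 * 2 ^ m) ^ 5 * (((N : ℝ) ^ m) ^ 2 / V ^ (2 * m) +
    (T : ℝ) ^ (1 / 7 : ℝ) * ((N : ℝ) ^ m) ^ (26 / 7 : ℝ) / V ^ (4 * m))) b hN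
    hV (by positivity) hb (fun M hM => hT2.trans (Nat.pow_le_pow_left hM 2))
    fun M L hM1 hM hL => ?_).trans_eq (by ring)
  have hT' : (N : ℝ) ^ m ≤ T := by exact_mod_cast hT
  have hX : 0 ≤ (N : ℝ) ^ m := by positivity
  have e2 : V ^ (2 * m) = (V ^ m) ^ 2 := by ring
  have e4 : V ^ (4 * m) = (V ^ m) ^ 4 := by ring
  have hW : 0 < V ^ m := by positivity
  rw [e2, e4]
  generalize (N : ℝ) ^ m = X at *
  generalize V ^ m = W at *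
  have hA : (1 : ℝ) ≤ 2 ^ m := one_le_pow₀ one_le_two
  obtain ⟨A, hA'⟩ : ∃ A : ℝ, A = 2 * 2 ^ m := ⟨_, rfl⟩
  have hA1 : 1 ≤ A := by linarith
  have hL0 : 0 < L := by linarith
  have hT0 : (0 : ℝ) ≤ T := Nat.cast_nonneg T
  have hM0 : (0 : ℝ) ≤ M := Nat.cast_nonneg M
  have b1 : (M : ℝ) ≤ A * X := by rw [hA']; nlinarith
  have b2 : (T : ℝ) + M ≤ A * T := by rw [hA']; nlinarith
  have b3 : ((T : ℝ) + M) ^ (1 / 7 : ℝ) ≤ A * (T : ℝ) ^ (1 / 7 : ℝ) := by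
    refine (Real.rpow_le_rpow (by positivity) b2 (by norm_num)).trans ?_
    rw [Real.mul_rpow (by linarith) hT0]
    refine mul_le_mul_of_nonneg_right ?_ (by positivity)
    exact (Real.rpow_le_rpow_of_exponent_le hA1 (z := 1) (by norm_num)).trans_eq
      (Real.rpow_one _)
  have b4 : (M : ℝ) ^ (26 / 7 : ℝ) ≤ A ^ 4 * X ^ (26 / 7 : ℝ) := by
    refine (Real.rpow_le_rpow hM0 b1 (by norm_num)).trans ?_
    rw [Real.mul_rpow (by linarith) hX]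
    refine mul_le_mul_of_nonneg_right ?_ (by positivity)
    exact (Real.rpow_le_rpow_of_exponent_le hA1 (z := ((4 : ℕ) : ℝ)) (by norm_num)).trans_eq
      (Real.rpow_natCast _ 4)
  have b5 : L ^ 2 ≤ L ^ 4 := pow_le_pow_right₀ hL (by norm_num)
  have b6 : A ^ 2 ≤ A ^ 5 := pow_le_pow_right₀ hA1 (by norm_num)
  rw [← hA']
  have c1 : (M : ℝ) ^ 2 / (W / L) ^ 2 ≤ L ^ 4 * (A ^ 5 * (X ^ 2 / W ^ 2)) := by
    calc (M : ℝ) ^ 2 / (W / L) ^ 2 = L ^ 2 * ((M : ℝ) ^ 2 / W ^ 2) := by field_simp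
      _ ≤ L ^ 4 * ((A * X) ^ 2 / W ^ 2) := by gcongr
      _ = L ^ 4 * (A ^ 2 * (X ^ 2 / W ^ 2)) := by ring
      _ ≤ _ := by gcongr
  have c3 : ((T : ℝ) + M) ^ (1 / 7 : ℝ) * (M : ℝ) ^ (26 / 7 : ℝ) / (W / L) ^ 4 ≤
      L ^ 4 * (A ^ 5 * ((T : ℝ) ^ (1 / 7 : ℝ) * X ^ (26 / 7 : ℝ) / W ^ 4)) := by
    calc ((T : ℝ) + M) ^ (1 / 7 : ℝ) * (M : ℝ) ^ (26 / 7 : ℝ) / (W / L) ^ 4 =
          L ^ 4 * (((T : ℝ) + M) ^ (1 / 7 : ℝ) * (M : ℝ) ^ (26 / 7 : ℝ) / W ^ 4) := by field_simp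
      _ ≤ L ^ 4 * (A * (T : ℝ) ^ (1 / 7 : ℝ) * (A ^ 4 * X ^ (26 / 7 : ℝ)) / W ^ 4) := by gcongr
      _ = _ := by ring
  linarith

end Pool.Agent.MP_2a1f0e_nt.LQ
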