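import Pool.Agent.MP_2a1f0e_nt.LQ.Pw

set_option autoImplicit false

open Finset

namespace Pool.Agent.MP_2a1f0e_nt.LQ

open GM GM2 SQ

/-- the admissible parameters -/
def Par (k m : ℕ) (θ y : ℝ) : Prop := m ≤ k ∧ k < 2 * m ∧ 0 ≤ θ ∧ θ ≤ 2 ∧
  (((8 * m - 4 * k - θ) * y ≤ θ * (2 * m - k) ∧
    (k = 2 ∨ (84 * m - 42 * k) * y ≤ θ * (34 * m - 21 * k))) ∨
    (28 * m - 14 * k - 6 * θ) * y ≤ θ * (2 * m - k))

/-- the weak type bound -/
def WkStmt : Prop := ∀ (k m : ℕ) (θ y q ε : ℝ), Par k m θ y → q = θ + 2 * k → 0 < ε →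
  ∃ K : ℝ, 0 < K ∧ ∀ (N T : ℕ) (V : ℝ) (b : ℕ → ℂ), 1 ≤ N → (T : ℝ) ≤ (N : ℝ) ^ (k + y) →
    0 < V → V ≤ N → (∀ n, ‖b n‖ ≤ 1) →
      (DH.cnt N b T V : ℝ) * V ^ q ≤ K * (N : ℝ) ^ ε * (N : ℝ) ^ q

lemma trm {n t X V α β q : ℝ} (j : ℕ) (hn : 0 < n) (ht : 0 < t) (hX : 0 < X) (hV : 0 < V)
    (h : α * Real.log t + β * Real.log X + (q - j) * Real.log V ≤ q * Real.log n) :
    t ^ α * X ^ β / V ^ j * V ^ q ≤ n ^ q := by
  rw [← Real.rpow_natCast V j, Real.rpow_def_of_pos hn, Real.rpow_def_of_pos ht,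
    Real.rpow_def_of_pos hX, Real.rpow_def_of_pos hV, Real.rpow_def_of_pos hV, ← Real.exp_add,
    ← Real.exp_sub, ← Real.exp_add, Real.exp_le_exp]
  linarith

lemma cross {z a w θ y α β γ : ℝ} (hθ : 0 < θ) (h1 : θ * w ≤ z) (h2 : z ≤ y * a) (ha : 0 ≤ a)
    (hγ : 0 ≤ γ) (hα : 0 ≤ α) (h : (α * θ + γ) * y ≤ β * θ) : α * z - β * a + γ * w ≤ 0 := by
  refine le_of_mul_le_mul_left ?_ hθ
  have k1 := mul_le_mul_of_nonneg_left h1 hγ
  have k2 := mul_le_mul_of_nonneg_left h2 (show 0 ≤ α * θ + γ by positivity)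
  have k3 := mul_le_mul_of_nonneg_right h ha
  nlinarith

lemma fin_wk {c K K' x F W y s : ℝ} (h : c ≤ K * x * F) (hW : 0 ≤ W) (hF : F * W ≤ s * y)
    (hK : 0 ≤ K) (hx : 0 ≤ x) (hy : 0 ≤ y) (hs : K * s ≤ K') : c * W ≤ K' * x * y := by
  calc c * W ≤ K * x * F * W := mul_le_mul_of_nonneg_right h hW
    _ = K * x * (F * W) := by ring
    _ ≤ K * x * (s * y) := by gcongr
    _ = K * s * x * y := by ring
    _ ≤ _ := by gcongr

theorem wk_stmt (hM : MvK) (hL : LvM) (h6 : Int6Stmt) (hR : RfM) : WkStmt := by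
  rintro k m θ y q ε ⟨p1, p2, θ0, θ2, p5⟩ eq hε
  obtain ⟨K1, hK1, hM⟩ := hM k ε hε
  obtain ⟨K2, hK2, hL⟩ := hL m ε hε
  obtain ⟨K3, hK3, h6⟩ := h6 ε hε
  obtain ⟨K4, hK4, hR⟩ := hR m ε hε
  refine ⟨3 * (K1 + K2 + K3 + K4), by positivity, fun N T V b hN hT hV hVN hb => ?_⟩
  have n1 : (1 : ℝ) ≤ N := by exact_mod_cast hN
  have n0 : (0 : ℝ) < N := by linarith
  have hx : 0 ≤ (N : ℝ) ^ ε := by positivity
  have hy : 0 ≤ (N : ℝ) ^ q := by positivity
  have hW : 0 ≤ V ^ q := by positivity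
  have a0 : 0 ≤ Real.log N := Real.log_natCast_nonneg N
  have v1 : Real.log V ≤ Real.log N := Real.log_le_log hV hVN
  have q1 : (m : ℝ) ≤ k := by exact_mod_cast p1
  have q2 : (k : ℝ) + 1 ≤ 2 * m := by exact_mod_cast p2
  have hXk : (0 : ℝ) < (N : ℝ) ^ k := by positivity
  have hXm : (0 : ℝ) < (N : ℝ) ^ m := by positivity
  have d0 : (N : ℝ) ^ k * (N : ℝ) ^ k / V ^ (2 * k) * V ^ q ≤ (N : ℝ) ^ q := by
    have := trm (α := 1) (β := 1) (q := q) (2 * k) n0 hXk hXk hV (by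
      rw [Real.log_pow, eq]
      push_cast
      nlinarith [mul_le_mul_of_nonneg_left v1 θ0])
    rwa [Real.rpow_one] at this
  rcases le_or_gt T (N ^ k) with c0 | c0
  · refine fin_wk (s := 2) (hM N T V b hN hV hb) hW ?_ hK1.le hx hy (by linarith)
    have c1 : (T : ℝ) ≤ (N : ℝ) ^ k := by exact_mod_cast c0
    calc ((T : ℝ) + (N : ℝ) ^ k) * (N : ℝ) ^ k / V ^ (2 * k) * V ^ q
        ≤ ((N : ℝ) ^ k + (N : ℝ) ^ k) * (N : ℝ) ^ k / V ^ (2 * k) * V ^ q := by gcongr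
      _ = 2 * ((N : ℝ) ^ k * (N : ℝ) ^ k / V ^ (2 * k) * V ^ q) := by ring
      _ ≤ _ := by linarith
  have t0 : (0 : ℝ) < T := by exact_mod_cast (Nat.zero_le _).trans_lt c0
  have l2 : Real.log T ≤ (k + y) * Real.log N := by
    rw [← Real.log_rpow n0]
    exact Real.log_le_log t0 hT
  rcases le_or_gt (Real.log T + k * Real.log N + θ * Real.log V) (q * Real.log N)
    with c1 | c1
  · refine fin_wk (s := 2) (hM N T V b hN hV hb) hW ?_ hK1.le hx hy (by linarith)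
    have d1 := trm (α := 1) (β := 1) (q := q) (2 * k) n0 t0 hXk hV (by
      rw [Real.log_pow]
      push_cast
      rw [show q - 2 * k = θ by linarith]
      linarith)
    rw [Real.rpow_one, Real.rpow_one] at d1
    calc ((T : ℝ) + (N : ℝ) ^ k) * (N : ℝ) ^ k / V ^ (2 * k) * V ^ q
        = (T : ℝ) * (N : ℝ) ^ k / V ^ (2 * k) * V ^ q +
          (N : ℝ) ^ k * (N : ℝ) ^ k / V ^ (2 * k) * V ^ q := by ring
      _ ≤ _ := by linarith
  obtain ⟨a, ha⟩ : ∃ a, a = Real.log N := ⟨_, rfl⟩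
  obtain ⟨z, hz⟩ : ∃ z, z = Real.log T - k * a := ⟨_, rfl⟩
  obtain ⟨w, hw⟩ : ∃ w, w = a - Real.log V := ⟨_, rfl⟩
  have eT : Real.log T = z + k * a := by linarith
  have eV : Real.log V = a - w := by linarith
  rw [← ha] at a0 v1 l2 c1
  have w0 : 0 ≤ w := by linarith
  have k1 : θ * w < z := by
    rw [eT, eV, eq] at c1
    linarith
  have k2 : z ≤ y * a := by
    rw [hz]
    linarith
  have y0 : 0 < y := by
    by_contra hc
    nlinarith [mul_nonneg (neg_nonneg.2 (not_lt.1 hc)) a0, mul_nonneg θ0 w0]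
  have θp : 0 < θ := by
    refine θ0.lt_of_ne fun h => ?_
    rw [← h, zero_mul] at p5
    rcases p5 with ⟨p5, -⟩ | p5
    · linarith [mul_pos (show 0 < 8 * (m : ℝ) - 4 * k - 0 by linarith) y0]
    · linarith [mul_pos (show 0 < 28 * (m : ℝ) - 14 * k - 6 * 0 by linarith) y0]
  have c2 : N ^ m ≤ T := (Nat.pow_le_pow_right hN p1).trans c0.le
  have d4 := trm (α := 0) (β := 2) (q := q) (2 * m) n0 t0 hXm hV (by
    rw [Real.log_pow, ← ha, eV, eq]
    push_cast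
    nlinarith [mul_nonneg (show 0 ≤ θ + 2 * k - 2 * m by linarith) w0])
  rw [Real.rpow_zero, one_mul, Real.rpow_two] at d4
  rcases p5 with ⟨hA, rfl | hB⟩ | hA
  · have m2 : m = 2 := by omega
    subst m2
    push_cast at *
    refine fin_wk (s := 3) (h6 N T V b hN hV hb) hW ?_ hK3.le hx hy (by linarith)
    have e1 := cross (α := 3 / 4) (β := 1 / 2) (γ := 2 - θ) θp k1.le k2 a0 (by linarith)
      (by norm_num) (by linarith)
    have e2 := cross (α := 1) (β := 1) (γ := 2 - θ) θp k1.le k2 a0 (by linarith)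
      (by norm_num) (by nlinarith [mul_nonneg (sub_nonneg.2 θ2) y0.le])
    have d1 := trm (α := 0) (β := 4) (q := q) 4 n0 t0 n0 hV (by
      rw [← ha, eV, eq]
      push_cast
      nlinarith [mul_nonneg θ0 w0])
    have d2 := trm (α := 3 / 4) (β := 4) (q := q) 6 n0 t0 n0 hV (by
      rw [← ha, eV, eT, eq]
      push_cast
      linarith)
    have d3 := trm (α := 1) (β := 3) (q := q) 6 n0 t0 n0 hV (by
      rw [← ha, eV, eT, eq]
      push_cast
      linarith)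
    rw [Real.rpow_zero, one_mul, Real.rpow_ofNat] at d1
    rw [Real.rpow_ofNat] at d2
    rw [Real.rpow_one, Real.rpow_ofNat] at d3
    rw [add_div, add_mul, add_mul]
    linarith
  · refine fin_wk (s := 3) (hL N T V b hN c2 hV hb) hW ?_ hK2.le hx hy (by linarith)
    have e1 := cross (α := 1 / 2) (β := m - k / 2) (γ := 4 * m - 2 * k - θ) θp k1.le k2 a0
      (by linarith) (by norm_num) (by linarith)
    have e2 := cross (α := 1) (β := 34 / 21 * m - k) (γ := 4 * m - 2 * k - θ) θp k1.le k2 a0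
      (by linarith) (by norm_num) (by linarith)
    have d2 := trm (α := 1 / 2) (β := 3) (q := q) (4 * m) n0 t0 hXm hV (by
      rw [Real.log_pow, ← ha, eV, eT, eq]
      push_cast
      linarith)
    have d3 := trm (α := 1) (β := 50 / 21) (q := q) (4 * m) n0 t0 hXm hV (by
      rw [Real.log_pow, ← ha, eV, eT, eq]
      push_cast
      linarith)
    rw [← Real.sqrt_eq_rpow, Real.rpow_ofNat] at d2
    rw [Real.rpow_one] at d3
    rw [add_mul, add_mul]
    linarith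
  · have y1 : (k : ℝ) + y ≤ ((2 * m : ℕ) : ℝ) := by
      push_cast
      by_contra hc
      have hc := not_le.1 hc
      have k3 := mul_nonneg (show 0 ≤ 28 * (m : ℝ) - 14 * k - 6 * θ - 2 by linarith) y0.le
      have k4 := mul_nonneg (sub_nonneg.2 θ2) (show 0 ≤ 2 * (m : ℝ) - k by linarith)
      linarith
    have c3 : T ≤ (N ^ m) ^ 2 := by
      have := hT.trans (Real.rpow_le_rpow_of_exponent_le n1 y1)
      rw [Real.rpow_natCast, mul_comm, pow_mul] at this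
      exact_mod_cast this
    refine fin_wk (s := 2) (hR N T V b hN c2 c3 hV hb) hW ?_ hK4.le hx hy (by linarith)
    have e1 := cross (α := 1 / 7) (β := (2 * m - k) / 7) (γ := 4 * m - 2 * k - θ) θp k1.le k2 a0
      (by linarith) (by norm_num) (by linarith)
    have d2 := trm (α := 1 / 7) (β := 26 / 7) (q := q) (4 * m) n0 t0 hXm hV (by
      rw [Real.log_pow, ← ha, eV, eT, eq]
      push_cast
      linarith)
    rw [add_mul]
    linarith

end Pool.Agent.MP_2a1f0e_nt.LQ
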